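import Pool.Agent.H534R3.XApp
import Pool.Agent.H534R3.PiThree
import Pool.Agent.H534R3.Local

/-!
# Differences of sets of normal vectors for two integer bases

For all multiplicatively independent integers `a, b > 1` and every `k`, the set of the real
polynomials `g` of degree at most `k` such that `g n * a ^ n` is uniformly distributed modulo one
and `g n * b ^ n` is not, is complete for the class of the differences of two sets of the third
multiplicative class, in the space of the coefficient vectors.

The hardness is seen on the constant polynomials, with the continuous map from the Baire space to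
the reals that reduces independently the convergence to infinity along the odd and the even
indices to the normality in the bases `a` and `b`.
-/

set_option autoImplicit false

open Filter Topology

namespace Pool.Agent.Results.MP_df8ac3_lc.NormalVectors

/-- The sequence `x` is uniformly distributed modulo one. -/
def IsUD (x : ℕ → ℝ) : Prop := ∀ s t : ℝ, 0 ≤ s → s ≤ t → t ≤ 1 →
  Tendsto
    (fun N : ℕ =>
      (((Finset.range N).filter (fun n => s ≤ Int.fract (x n) ∧ Int.fract (x n) < t)).card : ℝ)
        / (N : ℝ))
    atTop (nhds (t - s))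

/-- The value at the natural number `n` of the polynomial `c 0 + c 1 X + ... + c k X ^ k` with the
coefficient vector `c`. -/
def value {k : ℕ} (c : Fin (k + 1) → ℝ) (n : ℕ) : ℝ := ∑ i : Fin (k + 1), c i * (n : ℝ) ^ (i : ℕ)

/-- The set of the coefficient vectors of the real polynomials `g` of degree at most `k` such that
`g n * a ^ n` is uniformly distributed modulo one. -/
def NormalVec (a k : ℕ) : Set (Fin (k + 1) → ℝ) :=
  {c | IsUD (fun n => value c n * (a : ℝ) ^ n)}

/-- `A` is a countable intersection of countable unions of closed sets. -/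
def IsPiThree {X : Type} [TopologicalSpace X] (A : Set X) : Prop :=
  ∃ F : ℕ → ℕ → Set X, (∀ i j, IsClosed (F i j)) ∧ A = ⋂ i, ⋃ j, F i j

/-- `D` is the difference of two sets of the third multiplicative class. -/
def IsDTwo {X : Type} [TopologicalSpace X] (D : Set X) : Prop :=
  ∃ A B : Set X, IsPiThree A ∧ IsPiThree B ∧ D = A \ B

/-- `D` is complete for the class of the differences of two sets of the third multiplicative class:
it belongs to the class and its complement does not. -/
def IsDTwoComplete {X : Type} [TopologicalSpace X] (D : Set X) : Prop :=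
  IsDTwo D ∧ ¬ IsDTwo Dᶜ

/-- The constant polynomial. -/
def const (k : ℕ) (x : ℝ) : Fin (k + 1) → ℝ := fun i => if i = 0 then x else 0

theorem continuous_const' (k : ℕ) : Continuous (const k) := by
  refine continuous_pi fun i => ?_
  unfold const
  by_cases h : i = 0
  · simp only [h, if_true]
    exact continuous_id
  · simp only [h, if_false]
    exact continuous_const

theorem value_const (k : ℕ) (x : ℝ) (n : ℕ) : value (const k x) n = x := by
  unfold value const
  rw [Finset.sum_eq_single (0 : Fin (k + 1))]
  · simp
  · intro i _ hi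
    simp [hi]
  · intro h
    exact absurd (Finset.mem_univ _) h

theorem piThree_preimage {X Y : Type} [TopologicalSpace X] [TopologicalSpace Y] {f : X → Y}
    (hf : Continuous f) {A : Set Y} (hA : IsPiThree A) : IsPiThree (f ⁻¹' A) := by
  obtain ⟨F, hF, rfl⟩ := hA
  refine ⟨fun i j => f ⁻¹' F i j, fun i j => (hF i j).preimage hf, ?_⟩
  simp only [Set.preimage_iInter, Set.preimage_iUnion]

theorem normalVec_piThree (a k : ℕ) : IsPiThree (NormalVec a k) := by
  obtain ⟨F, hF, hFe⟩ := Pool.Agent.H534R3.UDist.ud_piThree
    (fun (c : Fin (k + 1) → ℝ) (n : ℕ) => value c n * (a : ℝ) ^ n)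
    (fun n => by unfold value; fun_prop)
  exact ⟨F, hF, hFe⟩

theorem irrational_ratio {a b : ℕ} (ha : 1 < a) (hb : 1 < b)
    (hab : ∀ m n : ℕ, 0 < m → 0 < n → a ^ m ≠ b ^ n) :
    Irrational (Real.log |(a : ℝ)| / Real.log |(b : ℝ)|) := by
  have h := Pool.Agent.H534R3.Rota.irr_logb ha hb hab 1 le_rfl
  rw [pow_one] at h
  rw [Nat.abs_cast, Nat.abs_cast]
  exact h

/-- For all multiplicatively independent integers `a, b > 1` and every natural number `k`, the set
of the vectors that are normal for `a` and not normal for `b` is complete for the class of the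
differences of two sets of the third multiplicative class. -/
theorem result (a b : ℕ) (ha : 1 < a) (hb : 1 < b)
    (hab : ∀ m n : ℕ, 0 < m → 0 < n → a ^ m ≠ b ^ n) (k : ℕ) :
    IsDTwoComplete (NormalVec a k \ NormalVec b k) := by
  refine ⟨⟨_, _, normalVec_piThree a k, normalVec_piThree b k, rfl⟩, ?_⟩
  rintro ⟨A, B, hA, hB, hAB⟩
  have ha' : 1 < |(a : ℝ)| := by rw [Nat.abs_cast]; exact_mod_cast ha
  have hb' : 1 < |(b : ℝ)| := by rw [Nat.abs_cast]; exact_mod_cast hb
  obtain ⟨g, hg, hga, hgb⟩ := Pool.Agent.H534R3.Rota.reduce_two_real a b ha' hb'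
    (irrational_ratio ha hb hab)
  have hG : Continuous fun w => const k (g w) := (continuous_const' k).comp hg
  obtain ⟨F, hF, hFe⟩ := piThree_preimage hG hA
  obtain ⟨F', hF', hFe'⟩ := piThree_preimage hG hB
  have hmem : ∀ (c : ℕ) (w : ℕ → ℕ), const k (g w) ∈ NormalVec c k ↔
      Pool.Agent.H534R3.UDist.UD (fun n => g w * (c : ℝ) ^ n) := by
    intro c w
    have h1 : (fun n => value (const k (g w)) n * (c : ℝ) ^ n) = fun n => g w * (c : ℝ) ^ n := by
      funext n
      rw [value_const]
    change IsUD (fun n => value (const k (g w)) n * (c : ℝ) ^ n) ↔ _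
    rw [h1]
    exact Iff.rfl
  refine Pool.Agent.H534R3.Rota.no_dual
    (fun w t => ∀ e, ∃ J, ∀ j, J ≤ j → Pool.Agent.H534R3.Rota.ty j = t → e ≤ w j)
    (fun w t => Iff.rfl) F F' hF hF' ?_
  rw [← hFe, ← hFe', ← Set.preimage_sdiff, ← hAB, Set.preimage_compl]
  congr 1
  ext w
  change _ ↔ (const k (g w) ∈ NormalVec a k ∧ ¬ const k (g w) ∈ NormalVec b k)
  rw [hmem, hmem, hga, hgb]
  exact Iff.rfl

end Pool.Agent.Results.MP_df8ac3_lc.NormalVectors
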